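import Mathlib

/-!
# The Dotsenko–Franz–Mézard identity for the SK model: statements of the pieces
-/

set_option autoImplicit false

open MeasureTheory ProbabilityTheory Filter

namespace Pool.TH15.DFM

/-- standard Gaussian measure on `ι → ℝ` -/
noncomputable def ga (ι : Type) [Fintype ι] : Measure (ι → ℝ) :=
  Measure.pi fun _ : ι => gaussianReal 0 1

/-- `∫ (∫ w (√t x + √(1-t) z) dz)² dx` -/
noncomputable def VV {ι : Type} [Fintype ι] (w : (ι → ℝ) → ℝ) (t : ℝ) : ℝ :=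
  ∫ x, (∫ z, w (fun i => √t * x i + √(1 - t) * z i) ∂(ga ι)) ^ 2 ∂(ga ι)

/-- `s_i s_j` for `i < j`, and `0` otherwise -/
noncomputable def se {N : ℕ} (σ : Fin N → Fin 2) (e : Fin N × Fin N) : ℝ :=
  if e.1 < e.2 then (-1 : ℝ) ^ (σ e.1).val * (-1 : ℝ) ^ (σ e.2).val else 0

noncomputable def HH (β : ℝ) (N : ℕ) (σ : Fin N → Fin 2) (g : Fin N × Fin N → ℝ) : ℝ :=
  β / √(N : ℝ) * ∑ e, g e * se σ e

noncomputable def ZZ (β : ℝ) (N : ℕ) (g : Fin N × Fin N → ℝ) : ℝ :=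
  ∑ σ : Fin N → Fin 2, Real.exp (HH β N σ g)

noncomputable def FF (β : ℝ) (N : ℕ) (g : Fin N × Fin N → ℝ) : ℝ := Real.log (ZZ β N g)

/-- Gibbs average of `s_i s_j` -/
noncomputable def mm (β : ℝ) (N : ℕ) (e : Fin N × Fin N) (g : Fin N × Fin N → ℝ) : ℝ :=
  (∑ σ : Fin N → Fin 2, Real.exp (HH β N σ g) * se σ e) / ZZ β N g

/-- `u` is convex with subgradient `du`, `|du|² ≤ K`, continuous -/
def Cvx {ι : Type} [Fintype ι] (u : (ι → ℝ) → ℝ) (du : (ι → ℝ) → ι → ℝ) (K : ℝ) : Prop :=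
  Continuous u ∧ (∀ i, Continuous fun x => du x i) ∧
    (∀ x y, u y + ∑ i, du y i * (x i - y i) ≤ u x) ∧ ∀ x, ∑ i, du x i ^ 2 ≤ K

/-- (T) Maurey's inequality for convex functions (from Prékopa–Leindler) -/
def S_T : Prop :=
  ∀ (ι : Type) [Fintype ι] (u : (ι → ℝ) → ℝ) (du : (ι → ℝ) → ι → ℝ) (K l : ℝ), 0 < l →
    Cvx u du K →
    ∫ x, Real.exp (-(l * u x)) ∂(ga ι) ≤
      Real.exp (-(l * ∫ x, u x ∂(ga ι)) + l ^ 2 * ∫ x, ∑ i, du x i ^ 2 ∂(ga ι))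

/-- (LT) lower tail through the smoothed function -/
def S_LT : Prop :=
  ∀ (ι : Type) [Fintype ι] (u : (ι → ℝ) → ℝ) (du : (ι → ℝ) → ι → ℝ) (K l t : ℝ), 0 < l →
    0 ≤ t → t ≤ 1 → Cvx u du K →
    ∫ x, Real.exp (-(l * u x)) ∂(ga ι) ≤
      Real.exp (-(l * ∫ x, u x ∂(ga ι)) + l ^ 2 * (1 - t) * K +
        l ^ 2 * t * ∑ i, VV (fun x => du x i) t)

/-- (CS) log-convexity of the correlation function -/
def S_CS : Prop :=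
  ∀ (ι : Type) [Fintype ι] (w : (ι → ℝ) → ℝ) (C t : ℝ), Continuous w → (∀ x, |w x| ≤ C) →
    0 ≤ t → t ≤ 1 → VV w (√t) ^ 2 ≤ VV w 1 * VV w t

/-- (GI) Gaussian interpolation inequality -/
def S_GI : Prop :=
  ∀ (d ι κ : Type) [Fintype d] [DecidableEq d] [Fintype ι] [Fintype κ]
    (A : d → ι → ℝ) (B : d → κ → ℝ)
    (Φ Φs : ℝ → (d → ℝ) → ℝ) (Φ1 : ℝ → (d → ℝ) → d → ℝ) (Φ2 : ℝ → (d → ℝ) → d → d → ℝ) (C : ℝ),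
    ContDiff ℝ 2 (fun p : ℝ × (d → ℝ) => Φ p.1 p.2) →
    (∀ s z, HasDerivAt (fun s => Φ s z) (Φs s z) s) →
    (∀ s z i, HasDerivAt (fun r => Φ s (Function.update z i r)) (Φ1 s z i) (z i)) →
    (∀ s z i j, HasDerivAt (fun r => Φ1 s (Function.update z j r) i) (Φ2 s z i j) (z j)) →
    (∀ s ∈ Set.Icc (0 : ℝ) 1, ∀ z, |Φs s z| ≤ C ∧ (∀ i, |Φ1 s z i| ≤ C) ∧
      ∀ i j, |Φ2 s z i j| ≤ C) →
    (∀ s ∈ Set.Ioo (0 : ℝ) 1, ∀ z, 0 ≤ Φs s z +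
      1 / 2 * ∑ i, ∑ j, (∑ k, A i k * A j k - ∑ k, B i k * B j k) * Φ2 s z i j) →
    ∫ y, Φ 0 (fun i => ∑ k, B i k * y k) ∂(ga κ) ≤ ∫ x, Φ 1 (fun i => ∑ k, A i k * x k) ∂(ga ι)

/-- (C2) no correlation of the Gibbs measures for slightly correlated disorder -/
def S_C2 : Prop :=
  ∀ β : ℝ, 0 < β → ∃ ρ C : ℝ, 0 < ρ ∧ ρ < 1 ∧ ∀ N : ℕ, 1 ≤ N →
    ∑ e, VV (mm β N e) ρ ≤ C * N

/-- (SUP) superadditivity (Guerra–Toninelli) -/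
def S_SUP : Prop :=
  ∀ β : ℝ, 0 < β → ∀ M N : ℕ, 1 ≤ M → 1 ≤ N →
    ∫ g, FF β M g ∂(ga _) + ∫ g, FF β N g ∂(ga _) ≤ ∫ g, FF β (M + N) g ∂(ga _)

/-- (BD) annealed bound and trivial bound -/
def S_BD : Prop :=
  ∀ β : ℝ, 0 < β → ∀ N : ℕ, 1 ≤ N →
    (∫ g, FF β N g ∂(ga _) ≤ N * (Real.log 2 + β ^ 2 / 4)) ∧
    N * Real.log 2 ≤ ∫ g, FF β N g ∂(ga _)

/-- (CALC) `FF` is convex and smooth -/
def S_CALC : Prop :=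
  ∀ β : ℝ, 0 < β → ∀ N : ℕ, 1 ≤ N →
    Cvx (FF β N) (fun g e => β / √(N : ℝ) * mm β N e g) (β ^ 2 * N / 2) ∧
    (∀ e, Continuous (mm β N e)) ∧ (∀ e g, |mm β N e g| ≤ 1) ∧
    ∀ g, ∑ e, mm β N e g ^ 2 ≤ (N : ℝ) ^ 2 / 2

/-- (CH) chaos for correlations `t < 1` arbitrarily close to `1` -/
def S_CH : Prop :=
  ∀ β : ℝ, 0 < β → ∀ ε : ℝ, 0 < ε → ∃ t : ℝ, 0 < t ∧ 1 - ε < t ∧ t < 1 ∧
    Tendsto (fun N : ℕ => (∑ e, VV (mm β N e) t) / (N : ℝ) ^ 2) atTop (nhds 0)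

/-- (LIM) the free energy converges -/
def S_LIM : Prop :=
  ∀ β : ℝ, 0 < β → ∃ L : ℝ,
    Tendsto (fun N : ℕ => (1 / (N : ℝ)) * ∫ g, FF β N g ∂(ga _)) atTop (nhds L)

/-- (MAIN) -/
def S_MAIN : Prop :=
  ∀ β : ℝ, 0 < β → ∀ a : ℝ, a < 0 → ∃ L : ℝ,
    Tendsto (fun N : ℕ => (1 / (N : ℝ)) * ∫ g, FF β N g ∂(ga _)) atTop (nhds L) ∧
    Tendsto (fun N : ℕ => (1 / (a * (N : ℝ))) * Real.log (∫ g, (ZZ β N g) ^ a ∂(ga _)))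
      atTop (nhds L)

end Pool.TH15.DFM
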